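import Pool.Agent.N728.QG.Def2

set_option autoImplicit false

/-! # Project QH (helper728), part H4L (helper475): slowly varying weights for the Liouville function -/

namespace Pool.Agent.N475.QH

open Finset MeasureTheory Filter Topology Pool.Agent.N728.QL Pool.Agent.N728.QG

/-! ### Extension of slowly varying weights -/

theorem step_nat (G : ℕ → ℝ) (lam0 : ℝ) (h2 : ∀ v, |G (v + 1) - G v| ≤ lam0) (v n : ℕ) :
    |G (v + n) - G v| ≤ lam0 * n := by
  induction n with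
  | zero => simp
  | succ n ih =>
    have h3 : G (v + (n + 1)) - G v = (G (v + n + 1) - G (v + n)) + (G (v + n) - G v) := by
      rw [← add_assoc]
      ring
    rw [h3]
    have h4 := abs_add_le (G (v + n + 1) - G (v + n)) (G (v + n) - G v)
    have h5 := h2 (v + n)
    push_cast
    linarith

theorem ext_nat (G : ℕ → ℝ) (lam0 : ℝ) (h0 : 0 ≤ lam0) (h1 : ∀ v, |G v| ≤ 1)
    (h2 : ∀ v, |G (v + 1) - G v| ≤ lam0) :
    ∃ F : ℝ → ℝ, (∀ x, |F x| ≤ 1) ∧ (∀ x y, |F x - F y| ≤ lam0 * |x - y|) ∧ ∀ v : ℕ, F v = G v := by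
  have hs : LipschitzOnWith ⟨lam0, h0⟩ (fun x : ℝ => G ⌊x⌋₊) (Set.range (Nat.cast : ℕ → ℝ)) := by
    apply LipschitzOnWith.of_dist_le_mul
    rintro _ ⟨v, rfl⟩ _ ⟨w, rfl⟩
    simp only [Nat.floor_natCast]
    rw [Real.dist_eq, Real.dist_eq]
    show |G v - G w| ≤ lam0 * |(v : ℝ) - w|
    rcases le_total v w with h | h
    · obtain ⟨n, rfl⟩ := Nat.exists_eq_add_of_le h
      have h3 := step_nat G lam0 h2 v n
      rw [abs_sub_comm]
      have h4 : |(v : ℝ) - ((v + n : ℕ) : ℝ)| = n := by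
        push_cast
        rw [sub_add_cancel_left, abs_neg, Nat.abs_cast]
      rw [h4]
      exact h3
    · obtain ⟨n, rfl⟩ := Nat.exists_eq_add_of_le h
      have h3 := step_nat G lam0 h2 w n
      have h4 : |((w + n : ℕ) : ℝ) - w| = n := by
        push_cast
        rw [add_sub_cancel_left, Nat.abs_cast]
      rw [h4]
      exact h3
  obtain ⟨g, hg, hgs⟩ := hs.extend_real
  refine ⟨fun x => max (-1) (min 1 (g x)), fun x => ?_, fun x y => ?_, fun v => ?_⟩
  · rw [abs_le]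
    exact ⟨le_max_left _ _, max_le (by norm_num) (min_le_left _ _)⟩
  · have h3 := ((hg.const_min 1).const_max (-1)).dist_le_mul x y
    rw [Real.dist_eq, Real.dist_eq] at h3
    exact h3
  · have h3 := hgs ⟨v, rfl⟩
    simp only [Nat.floor_natCast] at h3
    have h4 := abs_le.1 (h1 v)
    dsimp only
    rw [← h3, min_eq_right h4.2, max_eq_right h4.1]

/-- weights with cut-offs -/
theorem mk_g (G : ℕ → ℝ) (lam0 a b : ℝ) (h0 : 0 ≤ lam0) (ha : 0 < a) (h1 : ∀ v, |G v| ≤ 1)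
    (h2 : ∀ v, |G (v + 1) - G v| ≤ lam0) :
    ∃ g : ℝ → ℝ, (∀ x, |g x| ≤ 1) ∧ (∀ x y, |g x - g y| ≤ (1 / a + lam0) * |x - y|) ∧
      (∀ x, x ≤ a ∨ b ≤ x → g x = 0) ∧ (∀ v : ℕ, |G v - g v| ≤ 1) ∧
      ∀ v : ℕ, 2 * a ≤ v → (v : ℝ) ≤ b - a → g v = G v := by
  obtain ⟨F, hF1, hF2, hF3⟩ := ext_nat G lam0 h0 h1 h2
  have hia : 0 ≤ 1 / a := by positivity
  obtain ⟨χ, hχ⟩ : ∃ χ : ℝ → ℝ, χ = fun x => max 0 (min 1 (min ((x - a) / a) ((b - x) / a))) := ⟨_, rfl⟩
  have hc0 : ∀ x, 0 ≤ χ x := fun x => by rw [hχ]; exact le_max_left _ _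
  have hc1 : ∀ x, χ x ≤ 1 := fun x => by
    rw [hχ]
    exact max_le zero_le_one (min_le_left _ _)
  have hcL : ∀ x y, |χ x - χ y| ≤ 1 / a * |x - y| := by
    have e1 : LipschitzWith ⟨1 / a, hia⟩ (fun x : ℝ => (x - a) / a) := by
      apply LipschitzWith.of_dist_le_mul
      intro x y
      rw [Real.dist_eq, Real.dist_eq]
      show |(x - a) / a - (y - a) / a| ≤ 1 / a * |x - y|
      rw [← sub_div, sub_sub_sub_cancel_right, abs_div, abs_of_pos ha]
      exact le_of_eq (by ring)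
    have e2 : LipschitzWith ⟨1 / a, hia⟩ (fun x : ℝ => (b - x) / a) := by
      apply LipschitzWith.of_dist_le_mul
      intro x y
      rw [Real.dist_eq, Real.dist_eq]
      show |(b - x) / a - (b - y) / a| ≤ 1 / a * |x - y|
      rw [← sub_div, sub_sub_sub_cancel_left, abs_div, abs_of_pos ha, abs_sub_comm]
      exact le_of_eq (by ring)
    have e3 : LipschitzWith ⟨1 / a, hia⟩ (fun x : ℝ => min ((x - a) / a) ((b - x) / a)) := by
      have e30 := e1.min e2
      have e31 : max (⟨1 / a, hia⟩ : NNReal) ⟨1 / a, hia⟩ = ⟨1 / a, hia⟩ := max_self _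
      exact e31 ▸ e30
    have e4 := (e3.const_min 1).const_max 0
    intro x y
    have e5 := e4.dist_le_mul x y
    rw [Real.dist_eq, Real.dist_eq] at e5
    rw [hχ]
    exact e5
  refine ⟨fun x => χ x * F x, fun x => ?_, fun x y => ?_, fun x hx => ?_, fun v => ?_, fun v h3 h4 => ?_⟩
  · rw [abs_mul, abs_of_nonneg (hc0 x)]
    exact mul_le_one₀ (hc1 x) (abs_nonneg _) (hF1 x)
  · dsimp only
    have e1 : χ x * F x - χ y * F y = (χ x - χ y) * F x + χ y * (F x - F y) := by ring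
    rw [e1]
    refine (abs_add_le _ _).trans ?_
    rw [abs_mul, abs_mul, abs_of_nonneg (hc0 y)]
    have e2 : |χ x - χ y| * |F x| ≤ 1 / a * |x - y| * 1 :=
      mul_le_mul (hcL x y) (hF1 x) (abs_nonneg _) (by positivity)
    have e3 : χ y * |F x - F y| ≤ 1 * (lam0 * |x - y|) :=
      mul_le_mul (hc1 y) (hF2 x y) (abs_nonneg _) zero_le_one
    linarith
  · have e1 : χ x = 0 := by
      rw [hχ]
      dsimp only
      apply max_eq_left
      apply (min_le_right _ _).trans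
      rcases hx with hx | hx
      · exact (min_le_left _ _).trans (div_nonpos_of_nonpos_of_nonneg (by linarith) ha.le)
      · exact (min_le_right _ _).trans (div_nonpos_of_nonpos_of_nonneg (by linarith) ha.le)
    dsimp only
    rw [e1, zero_mul]
  · dsimp only
    rw [hF3]
    have e1 : G v - χ v * G v = (1 - χ v) * G v := by ring
    rw [e1, abs_mul, abs_of_nonneg (by have := hc1 v; linarith)]
    have := hc0 v
    exact mul_le_one₀ (by linarith) (abs_nonneg _) (h1 v)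
  · dsimp only
    have e1 : χ v = 1 := by
      rw [hχ]
      dsimp only
      have e2 : 1 ≤ ((v : ℝ) - a) / a := by
        rw [le_div_iff₀ ha]
        linarith
      have e3 : 1 ≤ (b - v) / a := by
        rw [le_div_iff₀ ha]
        linarith
      rw [min_eq_left (le_min e2 e3)]
      exact max_eq_right zero_le_one
    rw [e1, one_mul, hF3]

/-- the Lipschitz constant of `g ∘ exp` -/
theorem exp_lip (g : ℝ → ℝ) (Λ b : ℝ) (hΛ : 0 ≤ Λ) (hb : 0 < b) (h : ∀ x y, |g x - g y| ≤ Λ * |x - y|)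
    (h0 : ∀ x, b ≤ x → g x = 0) (s s' : ℝ) :
    |g (Real.exp s) - g (Real.exp s')| ≤ Λ * b * |s - s'| := by
  have key : ∀ s s' : ℝ, s ≤ s' → |g (Real.exp s) - g (Real.exp s')| ≤ Λ * b * (s' - s) := by
    have k1 : ∀ s s' : ℝ, s ≤ s' → s' ≤ Real.log b →
        |g (Real.exp s) - g (Real.exp s')| ≤ Λ * b * (s' - s) := by
      intro s s' h1 h2
      have h3 : Real.exp s' ≤ b := by
        rw [← Real.exp_log hb]
        exact Real.exp_le_exp.2 h2
      have h4 : Real.exp s' - Real.exp s ≤ Real.exp s' * (s' - s) := by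
        have h5 := Real.add_one_le_exp (s - s')
        have h6 : Real.exp s = Real.exp s' * Real.exp (s - s') := by
          rw [← Real.exp_add]
          congr 1
          ring
        rw [h6]
        have := Real.exp_pos s'
        nlinarith
      have h5 : 0 ≤ Real.exp s' - Real.exp s := sub_nonneg.2 (Real.exp_le_exp.2 h1)
      have h6 := h (Real.exp s) (Real.exp s')
      rw [abs_sub_comm (Real.exp s), abs_of_nonneg h5] at h6
      refine h6.trans ?_
      rw [mul_assoc]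
      apply mul_le_mul_of_nonneg_left _ hΛ
      exact h4.trans (mul_le_mul_of_nonneg_right h3 (by linarith))
    intro s s' h1
    by_cases h2 : s' ≤ Real.log b
    · exact k1 s s' h1 h2
    · push Not at h2
      have e1 : ∀ x, Real.log b ≤ x → g (Real.exp x) = 0 := by
        intro x hx
        apply h0
        rw [← Real.exp_log hb]
        exact Real.exp_le_exp.2 hx
      by_cases h3 : s ≤ Real.log b
      · have e2 := k1 s (Real.log b) h3 le_rfl
        rw [e1 _ le_rfl] at e2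
        rw [e1 _ h2.le]
        refine e2.trans ?_
        apply mul_le_mul_of_nonneg_left _ (by positivity)
        linarith
      · push Not at h3
        rw [e1 _ h3.le, e1 _ h2.le, sub_zero, abs_zero]
        have : 0 ≤ s' - s := by linarith
        positivity
  rcases le_total s s' with h1 | h1
  · have := key s s' h1
    rwa [abs_sub_comm s, abs_of_nonneg (by linarith : 0 ≤ s' - s)]
  · have := key s' s h1
    rw [abs_sub_comm]
    rwa [abs_of_nonneg (by linarith : 0 ≤ s - s')]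

/-- the cost of the cut-offs -/
theorem cut_cost (G : ℕ → ℝ) (g : ℝ → ℝ) (a : ℝ) (N : ℕ) (ha : 0 < a) (h1 : ∀ v : ℕ, |G v - g v| ≤ 1)
    (h2 : ∀ v : ℕ, 2 * a ≤ v → (v : ℝ) ≤ N - a → g v = G v) :
    ∑ v ∈ Icc 1 N, |G v - g v| ≤ 3 * a + 1 := by
  classical
  have e1 : ∑ v ∈ Icc 1 N, |G v - g v| ≤
      ∑ v ∈ Icc 1 ⌊2 * a⌋₊ ∪ Icc (N - ⌊a⌋₊) N, (1 : ℝ) := by
    calc ∑ v ∈ Icc 1 N, |G v - g v|
        ≤ ∑ v ∈ Icc 1 N, (if v ∈ Icc 1 ⌊2 * a⌋₊ ∪ Icc (N - ⌊a⌋₊) N then (1 : ℝ) else 0) := by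
          refine Finset.sum_le_sum fun v hv => ?_
          rw [mem_Icc] at hv
          split_ifs with h
          · exact h1 v
          · rw [mem_union, mem_Icc, mem_Icc] at h
            push Not at h
            obtain ⟨h3, h4⟩ := h
            have h5 := h3 hv.1
            rw [Nat.floor_lt (by positivity)] at h5
            have h6 : v < N - ⌊a⌋₊ := by
              by_contra hc
              push Not at hc
              exact absurd hv.2 (not_le.2 (h4 hc))
            have h7 : (v : ℝ) ≤ N - a := by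
              have h8 : v + ⌊a⌋₊ + 1 ≤ N := by omega
              have h9 : ((v + ⌊a⌋₊ + 1 : ℕ) : ℝ) ≤ N := by exact_mod_cast h8
              have h10 := Nat.lt_floor_add_one a
              push_cast at h9
              linarith
            rw [h2 v h5.le h7, sub_self, abs_zero]
      _ ≤ ∑ v ∈ Icc 1 ⌊2 * a⌋₊ ∪ Icc (N - ⌊a⌋₊) N, (1 : ℝ) := by
          rw [← Finset.sum_filter]
          apply Finset.sum_le_sum_of_subset_of_nonneg
          · intro v hv
            exact (mem_filter.1 hv).2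
          · intro _ _ _
            exact zero_le_one
  refine e1.trans ?_
  rw [Finset.sum_const, nsmul_eq_mul, mul_one]
  have e2 : ((Icc 1 ⌊2 * a⌋₊ ∪ Icc (N - ⌊a⌋₊) N).card : ℝ) ≤ (⌊2 * a⌋₊ : ℝ) + (⌊a⌋₊ + 1 : ℝ) := by
    have e3 := Finset.card_union_le (Icc 1 ⌊2 * a⌋₊) (Icc (N - ⌊a⌋₊) N)
    rw [Nat.card_Icc, Nat.card_Icc] at e3
    have e4 : ⌊2 * a⌋₊ + 1 - 1 + (N + 1 - (N - ⌊a⌋₊)) ≤ ⌊2 * a⌋₊ + (⌊a⌋₊ + 1) := by omega
    exact_mod_cast e3.trans e4
  have e3 := Nat.floor_le (show 0 ≤ 2 * a by positivity)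
  have e4 := Nat.floor_le ha.le
  linarith

/-! ### Sums -/

/-- the double sum -/
noncomputable def SS (E : ℕ → ℝ) (q u0 v0 X Y : ℕ) (γ : ℕ → ℝ) : ℝ :=
  ∑ u ∈ (Icc 1 X).filter (fun u => u ≡ u0 [MOD q]), ∑ v ∈ (Icc 1 Y).filter (fun v => v ≡ v0 [MOD q]),
    γ v * E (u * v)

theorem SS_le (E : ℕ → ℝ) (hE : ∀ n, |E n| ≤ 1) (q u0 v0 X Y : ℕ) (γ : ℕ → ℝ) (hγ : ∀ v, |γ v| ≤ 1) :
    |SS E q u0 v0 X Y γ| ≤ X * Y := by
  unfold SS
  have h1 : ∀ (N w0 : ℕ), (((Icc 1 N).filter (fun u => u ≡ w0 [MOD q])).card : ℝ) ≤ N := by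
    intro N w0
    have := Finset.card_filter_le (Icc 1 N) (fun u => u ≡ w0 [MOD q])
    rw [Nat.card_Icc, Nat.add_sub_cancel] at this
    exact_mod_cast this
  calc _ ≤ ∑ u ∈ (Icc 1 X).filter (fun u => u ≡ u0 [MOD q]), (Y : ℝ) := by
        refine (Finset.abs_sum_le_sum_abs _ _).trans (Finset.sum_le_sum fun u _ => ?_)
        calc _ ≤ ∑ v ∈ (Icc 1 Y).filter (fun v => v ≡ v0 [MOD q]), (1 : ℝ) := by
              refine (Finset.abs_sum_le_sum_abs _ _).trans (Finset.sum_le_sum fun v _ => ?_)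
              rw [abs_mul]
              exact mul_le_one₀ (hγ v) (abs_nonneg _) (hE _)
          _ ≤ Y := by
              rw [Finset.sum_const, nsmul_eq_mul, mul_one]
              exact h1 Y v0
    _ ≤ X * Y := by
        rw [Finset.sum_const, nsmul_eq_mul]
        exact mul_le_mul_of_nonneg_right (h1 X u0) (Nat.cast_nonneg _)

theorem SS_diff (E : ℕ → ℝ) (q u0 v0 U1 U2 Y : ℕ) (h : U1 ≤ U2) (γ : ℕ → ℝ) :
    ∑ u ∈ (Ioc U1 U2).filter (fun u => u ≡ u0 [MOD q]),
      ∑ v ∈ (Icc 1 Y).filter (fun v => v ≡ v0 [MOD q]), γ v * E (u * v) =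
    SS E q u0 v0 U2 Y γ - SS E q u0 v0 U1 Y γ := by
  unfold SS
  rw [Finset.sum_filter, Finset.sum_filter, Finset.sum_filter, eq_sub_iff_add_eq']
  exact Finset.sum_Ioc_consecutive _ (Nat.zero_le U1) h

theorem lam_le (n : ℤ) : |lam n| ≤ 1 := by
  unfold lam
  split_ifs
  · simp
  · rw [abs_pow, abs_neg, abs_one, one_pow]

/-- the range below the level of distribution -/
theorem low (E : ℕ → ℝ) (δ ε ρ : ℝ) (K K3 D C1 q B T U R u0 v0 B0 : ℕ) (g : ℝ → ℝ) (hδ : 0 < δ) (hε : 0 < ε)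
    (hD : 1 ≤ D) (hρ : 1 < ρ) (hρ2 : ρ ≤ 2)
    (hH : ∀ B : ℕ, B0 ≤ B → ∀ T : ℕ, B ≤ T ^ (3 * D) → (T : ℝ) * Real.log B ^ C1 ≤ B → H4 0 ε q (K + 1) B T E)
    (hB0 : B0 ≤ B) (hBT : B ≤ T ^ D) (hTB : T ≤ K3 * B) (hU : U ≤ T)
    (hR1 : ρ ^ R ≤ Real.log B ^ (C1 + 2)) (hR2 : Real.log B ^ (C1 + 2) < ρ ^ (R + 1))
    (hg1 : ∀ x, |g x| ≤ 1) (hg2 : ∀ x y, |g x - g y| ≤ (1 / (δ * B) + Real.log B / B) * |x - y|)
    (hg3 : ∀ x, (K : ℝ) * B ≤ x → g x = 0)
    (h1 : 1 ≤ Real.log B) (h4 : K + 1 ≤ B) (h6 : (2 * Real.log B ^ (C1 + 2)) ^ (3 * D) ≤ B)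
    (h7 : 4 * Real.exp (1 / δ) ≤ Real.log B ^ (C1 + 2)) (h8 : 8 * K3 * 2 ^ C1 ≤ Real.log B ^ (C1 + 4)) :
    |∑ u ∈ (Icc 1 ⌊(U : ℝ) / ρ ^ R⌋₊).filter (fun u => u ≡ u0 [MOD q]),
      ∑ v ∈ (Icc 1 ⌊(K : ℝ) * B * ρ ^ R⌋₊).filter (fun v => v ≡ v0 [MOD q]),
        g (Real.exp (Real.log v - R * Real.log ρ)) * E (u * v)| ≤ ε * ((B : ℝ) * T) := by
  have hρ0 : 0 < ρ := by linarith
  obtain ⟨P, hP⟩ : ∃ P : ℝ, P = ρ ^ R := ⟨_, rfl⟩
  obtain ⟨ℓ, hℓ⟩ : ∃ ℓ : ℝ, ℓ = Real.log B := ⟨_, rfl⟩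
  rw [← hℓ] at hR1 hR2 hg2 h1 h6 h7 h8
  have hP1 : 1 ≤ P := by
    rw [hP]
    exact one_le_pow₀ hρ.le
  have hP0 : 0 < P := by linarith
  have hP3 : ℓ ^ (C1 + 2) ≤ 2 * P := by
    rw [hP]
    rw [pow_succ ρ R] at hR2
    have : 0 < ρ ^ R := by positivity
    nlinarith
  rw [← hP] at hR1 ⊢
  have hℓA : 1 ≤ ℓ ^ (C1 + 2) := one_le_pow₀ h1
  have hB2 : 2 * ℓ ^ (C1 + 2) ≤ B := by
    refine le_trans ?_ h6
    exact le_self_pow₀ (by linarith) (by omega)
  have hB0' : (0 : ℝ) < B := by linarith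
  have hBK : (K : ℝ) + 1 ≤ B := by exact_mod_cast h4
  obtain ⟨B', hB'⟩ : ∃ B' : ℕ, B' = ⌊(B : ℝ) * P⌋₊ := ⟨_, rfl⟩
  obtain ⟨T', hT'⟩ : ∃ T' : ℕ, T' = ⌊(T : ℝ) / P⌋₊ := ⟨_, rfl⟩
  have b1 : (B' : ℝ) ≤ B * P := by
    rw [hB']
    exact Nat.floor_le (by positivity)
  have b2 : (B : ℝ) * P < B' + 1 := by
    rw [hB']
    exact Nat.lt_floor_add_one _
  have bBP : (B : ℝ) ≤ B * P := le_mul_of_one_le_right hB0'.le hP1
  have b3 : B ≤ B' := by
    rw [hB']
    exact Nat.le_floor bBP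
  have b3' : (B : ℝ) ≤ B' := by exact_mod_cast b3
  have b4 : (B : ℝ) * P / 2 ≤ B' := by
    have : (2 : ℝ) ≤ B := by linarith
    have h9 : 2 ≤ (B : ℝ) * P := by linarith
    linarith
  have hB'0 : (0 : ℝ) < B' := by linarith
  -- `T`
  have hTB' : (T : ℝ) ≤ K3 * B := by exact_mod_cast hTB
  have hBT' : (B : ℝ) ≤ (T : ℝ) ^ D := by exact_mod_cast hBT
  have hT2 : 2 * ℓ ^ (C1 + 2) ≤ T := by
    by_contra hc
    push Not at hc
    have h9 : (T : ℝ) ^ D < (2 * ℓ ^ (C1 + 2)) ^ D := pow_lt_pow_left₀ hc (Nat.cast_nonneg _) (by omega)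
    have h10 : (2 * ℓ ^ (C1 + 2)) ^ D ≤ (2 * ℓ ^ (C1 + 2)) ^ (3 * D) := pow_le_pow_right₀ (by linarith) (by omega)
    linarith
  have t1 : (T' : ℝ) ≤ T / P := by
    rw [hT']
    exact Nat.floor_le (by positivity)
  have t2 : (T : ℝ) / P < T' + 1 := by
    rw [hT']
    exact Nat.lt_floor_add_one _
  have t3 : (T : ℝ) / (2 * ℓ ^ (C1 + 2)) ≤ T' := by
    have h9 : 2 ≤ (T : ℝ) / P := by
      rw [le_div_iff₀ hP0]
      linarith
    have h10 : (T : ℝ) / (2 * ℓ ^ (C1 + 2)) ≤ T / P / 2 := by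
      rw [div_div]
      apply div_le_div_of_nonneg_left (Nat.cast_nonneg _) (by positivity)
      linarith
    linarith
  -- the conditions
  have c1 : B' ≤ T' ^ (3 * D) := by
    have h9 : (B' : ℝ) ≤ (T' : ℝ) ^ (3 * D) := by
      calc (B' : ℝ) ≤ B * P := b1
        _ ≤ B * B := by
            apply mul_le_mul_of_nonneg_left _ hB0'.le
            linarith
        _ ≤ ((T : ℝ) / (2 * ℓ ^ (C1 + 2))) ^ (3 * D) := by
            rw [div_pow, le_div_iff₀ (by positivity)]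
            calc (B : ℝ) * B * (2 * ℓ ^ (C1 + 2)) ^ (3 * D) ≤ B * B * B := by
                  apply mul_le_mul_of_nonneg_left h6 (by positivity)
              _ = (B : ℝ) ^ 3 := by ring
              _ ≤ ((T : ℝ) ^ D) ^ 3 := pow_le_pow_left₀ hB0'.le hBT' 3
              _ = (T : ℝ) ^ (3 * D) := by
                  rw [← pow_mul, mul_comm D 3]
        _ ≤ (T' : ℝ) ^ (3 * D) := pow_le_pow_left₀ (by positivity) t3 _
    exact_mod_cast h9
  have hlogB' : Real.log B' ≤ 2 * ℓ := by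
    calc Real.log B' ≤ Real.log (B * B) := by
          apply Real.log_le_log hB'0
          refine b1.trans ?_
          apply mul_le_mul_of_nonneg_left _ hB0'.le
          linarith
      _ = 2 * ℓ := by
          rw [Real.log_mul hB0'.ne' hB0'.ne', ← hℓ]
          ring
  have hlogB'0 : ℓ ≤ Real.log B' := by
    rw [hℓ]
    exact Real.log_le_log hB0' b3'
  have c2 : (T' : ℝ) * Real.log B' ^ C1 ≤ B' := by
    calc (T' : ℝ) * Real.log B' ^ C1 ≤ (K3 * B / P) * (2 * ℓ) ^ C1 := by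
          apply mul_le_mul _ (pow_le_pow_left₀ (by linarith) hlogB' _) (pow_nonneg (by linarith) _) (by positivity)
          refine t1.trans ?_
          exact div_le_div_of_nonneg_right hTB' hP0.le
      _ ≤ B * P / 2 := by
          rw [div_mul_eq_mul_div, div_le_iff₀ hP0]
          have h9 : 8 * (K3 : ℝ) * 2 ^ C1 * ℓ ^ C1 ≤ 4 * (P * P) := by
            calc 8 * (K3 : ℝ) * 2 ^ C1 * ℓ ^ C1 ≤ ℓ ^ (C1 + 4) * ℓ ^ C1 := by
                  apply mul_le_mul_of_nonneg_right h8 (pow_nonneg (by linarith) _)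
              _ = ℓ ^ (C1 + 2) * ℓ ^ (C1 + 2) := by
                  rw [← pow_add, ← pow_add]
                  congr 1
                  omega
              _ ≤ (2 * P) * (2 * P) := mul_le_mul hP3 hP3 (by linarith) (by linarith)
              _ = 4 * (P * P) := by ring
          rw [mul_pow]
          have h10 : (K3 : ℝ) * B * (2 ^ C1 * ℓ ^ C1) = B * (8 * (K3 : ℝ) * 2 ^ C1 * ℓ ^ C1) / 8 := by ring
          rw [h10]
          have h11 : (B : ℝ) * P / 2 * P = B * (4 * (P * P)) / 8 := by ring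
          rw [h11]
          apply div_le_div_of_nonneg_right _ (by norm_num)
          exact mul_le_mul_of_nonneg_left h9 hB0'.le
      _ ≤ B' := b4
  have hH' := hH B' (hB0.trans b3) T' c1 c2
  -- the step
  have hlog2 : ℓ + 1 / δ ≤ Real.log B' := by
    rw [← Real.log_exp (1 / δ), hℓ, ← Real.log_mul hB0'.ne' (Real.exp_pos _).ne']
    apply Real.log_le_log (by positivity)
    refine le_trans ?_ b4
    have h9 : Real.exp (1 / δ) ≤ P / 2 := by linarith
    have h10 := mul_le_mul_of_nonneg_left h9 hB0'.le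
    linarith
  have hexp : ∀ v : ℕ, 1 ≤ v → Real.exp (Real.log v - R * Real.log ρ) = v / P := by
    intro v hv
    have hv0 : (0 : ℝ) < v := by exact_mod_cast hv
    rw [Real.exp_sub, Real.exp_log hv0, mul_comm, Real.exp_mul, Real.exp_log hρ0, Real.rpow_natCast, hP]
  have hq := hH' 0 ⌊(U : ℝ) / P⌋₊ u0 v0 (fun v => g (v / P)) (Nat.zero_le _)
    (by
      rw [hT']
      apply Nat.floor_le_floor
      apply div_le_div_of_nonneg_right _ hP0.le
      exact_mod_cast hU)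
    (fun v => hg1 _)
    (fun v => by
      refine (hg2 _ _).trans ?_
      have e1 : |((v + 1 : ℕ) : ℝ) / P - v / P| = 1 / P := by
        rw [← sub_div]
        push_cast
        rw [add_sub_cancel_left, abs_of_pos (by positivity)]
      rw [e1]
      have e2 : (1 / (δ * B) + ℓ / B) * (1 / P) = (ℓ + 1 / δ) / (B * P) := by
        field_simp
        try ring
      rw [e2]
      apply div_le_div₀ _ hlog2 hB'0 b1
      linarith)
  rw [zero_div, zero_mul, zero_add] at hq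
  have e1 : ∑ u ∈ (Ioc 0 ⌊(U : ℝ) / P⌋₊).filter (fun u => u ≡ u0 [MOD q]),
        ∑ v ∈ (Icc 1 ((K + 1) * B')).filter (fun v => v ≡ v0 [MOD q]), g (v / P) * E (u * v) =
      ∑ u ∈ (Icc 1 ⌊(U : ℝ) / P⌋₊).filter (fun u => u ≡ u0 [MOD q]),
        ∑ v ∈ (Icc 1 ⌊(K : ℝ) * B * P⌋₊).filter (fun v => v ≡ v0 [MOD q]),
          g (Real.exp (Real.log v - R * Real.log ρ)) * E (u * v) := by
    refine Finset.sum_congr rfl fun u _ => ?_
    symm
    rw [Finset.sum_congr rfl (g := fun v : ℕ => g ((v : ℝ) / P) * E (u * v))]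
    · apply Finset.sum_subset
      · apply Finset.filter_subset_filter
        apply Finset.Icc_subset_Icc le_rfl
        apply Nat.floor_le_of_le
        push_cast
        have h9 : (K : ℝ) + 1 ≤ B * P := by linarith
        have h10 : (K + 1 : ℝ) * (B * P) ≤ (K + 1) * (B' + 1) := by
          apply mul_le_mul_of_nonneg_left b2.le (by positivity)
        nlinarith
      · intro v hv hv2
        rw [mem_filter, mem_Icc] at hv
        rw [mem_filter, mem_Icc] at hv2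
        have h9 : ⌊(K : ℝ) * B * P⌋₊ < v := by
          by_contra hc
          push Not at hc
          exact hv2 ⟨⟨hv.1.1, hc⟩, hv.2⟩
        have h10 : (K : ℝ) * B * P < v := (Nat.floor_lt (by positivity)).1 h9
        rw [hg3 _ (by
          rw [le_div_iff₀ hP0]
          exact h10.le), zero_mul]
    · intro v hv
      rw [mem_filter, mem_Icc] at hv
      rw [hexp v hv.1.1]
  rw [e1] at hq
  refine hq.trans ?_
  apply mul_le_mul_of_nonneg_left _ hε.le
  calc (B' : ℝ) * T' ≤ (B * P) * (T / P) := mul_le_mul b1 t1 (Nat.cast_nonneg _) (by positivity)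
    _ = B * T := by
        field_simp

theorem evs (δ ε : ℝ) (K K3 D C1 : ℕ) (hε : 0 < ε) : ∀ᶠ B : ℕ in atTop,
    1 ≤ Real.log B ∧ 1 ≤ ε * B / 12 ∧ K * (Real.log B + 1 / δ) ≤ Real.log B ^ 2 ∧ K3 ≤ B ∧ K + 1 ≤ B ∧
    ⌈(1 / δ) ^ (D + 1)⌉₊ ^ D < B ∧ (2 * Real.log B ^ (C1 + 2)) ^ (3 * D) ≤ B ∧
    4 * Real.exp (1 / δ) ≤ Real.log B ^ (C1 + 2) ∧ 8 * K3 * 2 ^ C1 ≤ Real.log B ^ (C1 + 4) := by
  have hcast : Tendsto (fun B : ℕ => (B : ℝ)) atTop atTop := tendsto_natCast_atTop_atTop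
  have hlog : Tendsto (fun B : ℕ => Real.log B) atTop atTop := Real.tendsto_log_atTop.comp hcast
  have hpow : ∀ n : ℕ, n ≠ 0 → Tendsto (fun B : ℕ => Real.log B ^ n) atTop atTop := fun n hn =>
    (tendsto_pow_atTop hn).comp hlog
  have hb : Tendsto (fun B : ℕ => ε * B / 12) atTop atTop := by
    have h9 := hcast.const_mul_atTop (show 0 < ε / 12 by positivity)
    refine h9.congr fun B => ?_
    ring
  have h6 : ∀ᶠ B : ℕ in atTop, (2 * Real.log B ^ (C1 + 2)) ^ (3 * D) ≤ (B : ℝ) := by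
    have h9 := (Real.isLittleO_pow_log_id_atTop (n := (C1 + 2) * (3 * D))).bound
      (show (0 : ℝ) < 1 / 2 ^ (3 * D) by positivity)
    have h10 := hcast.eventually h9
    filter_upwards [h10, hlog.eventually_ge_atTop 0] with B hB hB2
    rw [Real.norm_of_nonneg (pow_nonneg hB2 _), id, Real.norm_of_nonneg (Nat.cast_nonneg _),
      div_mul_eq_mul_div, one_mul, le_div_iff₀ (by positivity)] at hB
    rw [mul_pow, ← pow_mul, mul_comm]
    exact hB
  have h3 : ∀ᶠ B : ℕ in atTop, (K : ℝ) * (Real.log B + 1 / δ) ≤ Real.log B ^ 2 := by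
    filter_upwards [hlog.eventually_ge_atTop (2 * K), hlog.eventually_ge_atTop |1 / δ|,
      hlog.eventually_ge_atTop 0] with B hB hB2 hB3
    have h9 : 1 / δ ≤ Real.log B := (le_abs_self _).trans hB2
    have hK : (0 : ℝ) ≤ K := Nat.cast_nonneg _
    have h10 : (K : ℝ) * (Real.log B + 1 / δ) ≤ K * (2 * Real.log B) := by
      apply mul_le_mul_of_nonneg_left _ hK
      linarith
    have h11 := mul_le_mul_of_nonneg_right hB hB3
    nlinarith
  filter_upwards [hlog.eventually_ge_atTop 1, hb.eventually_ge_atTop 1, h3, eventually_ge_atTop K3,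
    eventually_ge_atTop (K + 1), eventually_gt_atTop (⌈(1 / δ) ^ (D + 1)⌉₊ ^ D), h6,
    (hpow (C1 + 2) (by omega)).eventually_ge_atTop _, (hpow (C1 + 4) (by omega)).eventually_ge_atTop _]
    with B a1 a2 a3 a4 a5 a6 a7 a8 a9
  exact ⟨a1, a2, a3, a4, a5, a6, a7, a8, a9⟩

/-- H4L. -/
theorem t_H4L (hSH : S_SH) (hB4 : ∀ c : ℤ, c ≠ 0 → S_B4L c) (hUU : S_UU) : ∀ c : ℤ, c ≠ 0 → S_H4L c := by
  intro c hc K K3 D q ε hK hD hq hε
  obtain ⟨C1, hC1⟩ := hB4 c hc
  have hK1 : (1 : ℝ) ≤ K := by exact_mod_cast hK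
  have hK0 : (0 : ℝ) < K := by linarith
  obtain ⟨δ, hδ⟩ : ∃ δ : ℝ, δ = min (1 / 4) (ε / (12 * K)) := ⟨_, rfl⟩
  have hδ0 : 0 < δ := by
    rw [hδ]
    exact lt_min (by norm_num) (by positivity)
  have hδ1 : δ ≤ 1 / 4 := by
    rw [hδ]
    exact min_le_left _ _
  have hδ2 : δ * (12 * K) ≤ ε := by
    rw [← le_div_iff₀ (by positivity), hδ]
    exact min_le_right _ _
  obtain ⟨C, hC, k, B1, hU⟩ := hUU (8 * (D + 1)) (by omega)
  obtain ⟨ρ, hρ1, hρ2, B2, hS⟩ := hSH C (ε / 6) k (D + 1) K 2 q (C1 + 2) ⌈Real.log (1 / δ)⌉₊ hC (by positivity)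
    (by omega) hK hq
  obtain ⟨B3, hB3⟩ := hC1 (K + 1) (3 * D) q (ε / 6) (by omega) (by omega) hq (by positivity)
  obtain ⟨B4, hB4⟩ := eventually_atTop.1 (evs δ ε K K3 D C1 hε)
  refine ⟨max (max B1 B2) (max B3 B4), fun B hB T hBT hTB => ?_⟩
  have hBB1 : B1 ≤ B := ((le_max_left _ _).trans (le_max_left _ _)).trans hB
  have hBB2 : B2 ≤ B := ((le_max_right _ _).trans (le_max_left _ _)).trans hB
  have hBB3 : B3 ≤ B := ((le_max_left _ _).trans (le_max_right _ _)).trans hB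
  have hBB4 : B4 ≤ B := ((le_max_right _ _).trans (le_max_right _ _)).trans hB
  obtain ⟨h1, h2, h3, h4, h5, h6, h7, h8, h9⟩ := hB4 B hBB4
  intro U1 U2 u0 v0 Gv hU12 hU2 hG1 hG2
  have hBp : 0 < B := by omega
  have hB0 : (0 : ℝ) < B := by exact_mod_cast hBp
  have hT0 : (0 : ℝ) ≤ T := Nat.cast_nonneg _
  obtain ⟨E, hE⟩ : ∃ E : ℕ → ℝ, E = fun n : ℕ => lam ((n : ℤ) + c) := ⟨_, rfl⟩
  have hE1 : ∀ n, |E n| ≤ 1 := fun n => by
    rw [hE]
    exact lam_le _
  have hB3' : ∀ B : ℕ, B3 ≤ B → ∀ T : ℕ, B ≤ T ^ (3 * D) → (T : ℝ) * Real.log B ^ C1 ≤ B →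
      H4 0 (ε / 6) q (K + 1) B T E := by
    rw [hE]
    exact hB3
  show |∑ u ∈ (Ioc U1 U2).filter (fun u => u ≡ u0 [MOD q]), ∑ v ∈ (Icc 1 (K * B)).filter (fun v => v ≡ v0 [MOD q]),
    Gv v * lam (((u * v : ℕ) : ℤ) + c)| ≤ _
  have hEE : ∀ n : ℕ, lam ((n : ℤ) + c) = E n := fun n => by rw [hE]
  simp only [hEE]
  obtain ⟨g, hg1, hg2, hg3, hg4, hg5⟩ := mk_g Gv (Real.log B / B) (δ * B) (K * B)
    (div_nonneg (by linarith) hB0.le) (by positivity) hG1 hG2
  -- one sum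
  have key : ∀ U : ℕ, U ≤ T → |SS E q u0 v0 U (K * B) (fun v => g v)| ≤ ε / 3 * (B * T) := by
    intro U hUT
    have hUT' : (U : ℝ) ≤ T := by exact_mod_cast hUT
    by_cases hUd : (U : ℝ) < δ * T
    · refine (SS_le E hE1 q u0 v0 U (K * B) _ fun v => hg1 _).trans ?_
      push_cast
      calc (U : ℝ) * (K * B) ≤ δ * T * (K * B) := mul_le_mul_of_nonneg_right hUd.le (by positivity)
        _ = (δ * (12 * K)) * (B * T) / 12 := by ring
        _ ≤ ε * (B * T) / 12 := by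
            apply div_le_div_of_nonneg_right _ (by norm_num)
            exact mul_le_mul_of_nonneg_right hδ2 (by positivity)
        _ ≤ ε / 3 * (B * T) := by
            have : 0 ≤ ε * (B * T) := by positivity
            linarith
    · push Not at hUd
      obtain ⟨R, hR1, hR2⟩ := exists_nat_pow_near (one_le_pow₀ h1 (n := C1 + 2)) hρ1
      have hTd : (1 / δ) ^ (D + 1) ≤ T := by
        have e1 : ⌈(1 / δ) ^ (D + 1)⌉₊ ^ D < T ^ D := lt_of_lt_of_le h6 hBT
        have e2 : ⌈(1 / δ) ^ (D + 1)⌉₊ < T := lt_of_pow_lt_pow_left₀ D (Nat.zero_le _) e1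
        have e3 : ((⌈(1 / δ) ^ (D + 1)⌉₊ : ℕ) : ℝ) < T := by exact_mod_cast e2
        exact (Nat.le_ceil _).trans e3.le
      have hBU : B ≤ U ^ (D + 1) := by
        have e1 : (B : ℝ) ≤ (U : ℝ) ^ (D + 1) := by
          have e2 : (δ * T) ^ (D + 1) ≤ (U : ℝ) ^ (D + 1) := pow_le_pow_left₀ (by positivity) hUd _
          refine le_trans ?_ e2
          rw [mul_pow, pow_succ (T : ℝ)]
          have e3 : (B : ℝ) ≤ (T : ℝ) ^ D := by exact_mod_cast hBT
          have e4 : 1 ≤ δ ^ (D + 1) * T := by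
            rw [one_div, inv_pow, inv_le_iff_one_le_mul₀ (by positivity), mul_comm] at hTd
            exact hTd
          calc (B : ℝ) ≤ (T : ℝ) ^ D * 1 := by rw [mul_one]; exact e3
            _ ≤ (T : ℝ) ^ D * (δ ^ (D + 1) * T) := mul_le_mul_of_nonneg_left e4 (by positivity)
            _ = δ ^ (D + 1) * ((T : ℝ) ^ D * T) := by ring
        exact_mod_cast e1
      have hUB : U ≤ B ^ (D + 1) := by
        calc U ≤ K3 * B := hUT.trans hTB
          _ ≤ B * B := Nat.mul_le_mul_right _ h4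
          _ = B ^ 2 := by ring
          _ ≤ B ^ (D + 1) := Nat.pow_le_pow_right hBp (by omega)
      have hLe : (1 / (δ * B) + Real.log B / B) * (K * B) = K * (Real.log B + 1 / δ) := by
        field_simp
        try ring
      have hs := hS B hBB2 (fun _ => 1) E hE1 (hU B hBB1).1 (hU B hBB1).2 R U u0 v0 (fun s => g (Real.exp s))
        (K * (Real.log B + 1 / δ)) hR1 hBU hUB
        (by
          have e1 : 0 < 1 / δ := by positivity
          have e2 : 1 * 1 ≤ (K : ℝ) * (Real.log B + 1 / δ) := mul_le_mul hK1 (by linarith) zero_le_one hK0.le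
          linarith)
        h3 (fun s => (hg1 _).trans (by norm_num))
        (fun s s' => by
          have e1 := exp_lip g (1 / (δ * B) + Real.log B / B) (K * B)
            (add_nonneg (by positivity) (div_nonneg (by linarith) hB0.le)) (by positivity) hg2
            (fun x hx => hg3 x (Or.inr hx)) s s'
          rw [hLe] at e1
          exact e1)
        (fun s hs => by
          apply hg3
          by_cases e1 : Real.log B - ⌈Real.log (1 / δ)⌉₊ ≤ s
          · right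
            have e2 : Real.log (K * B) < s := by
              by_contra e3
              exact hs ⟨e1, not_lt.1 e3⟩
            rw [← Real.exp_log (show (0 : ℝ) < K * B by positivity)]
            exact Real.exp_le_exp.2 e2.le
          · left
            push Not at e1
            have e2 := Nat.le_ceil (Real.log (1 / δ))
            have e3 : s ≤ Real.log (δ * B) := by
              rw [Real.log_mul hδ0.ne' hB0.ne']
              rw [one_div, Real.log_inv] at e2 e1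
              linarith
            rw [← Real.exp_log (show (0 : ℝ) < δ * B by positivity)]
            exact Real.exp_le_exp.2 e3)
      have hlow := low E δ (ε / 6) ρ K K3 D C1 q B T U R u0 v0 B3 g hδ0 (by positivity) hD hρ1 hρ2 hB3' hBB3 hBT
        hTB hUT hR1 hR2 hg1 hg2 (fun x hx => hg3 x (Or.inr hx)) h1 h5 h7 h8 h9
      have hSS : SS E q u0 v0 U (K * B) (fun v => g v) =
          ∑ u ∈ (Icc 1 U).filter (fun u => u ≡ u0 [MOD q]), ∑ v ∈ (Icc 1 (K * B)).filter (fun v => v ≡ v0 [MOD q]),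
            g (Real.exp (Real.log v)) * E (u * v) := by
        unfold SS
        refine Finset.sum_congr rfl fun u _ => Finset.sum_congr rfl fun v hv => ?_
        rw [mem_filter, mem_Icc] at hv
        have hv0 : (0 : ℝ) < v := by exact_mod_cast hv.1.1
        rw [Real.exp_log hv0]
      rw [hSS]
      have e1 := abs_sub_abs_le_abs_sub (∑ u ∈ (Icc 1 U).filter (fun u => u ≡ u0 [MOD q]),
        ∑ v ∈ (Icc 1 (K * B)).filter (fun v => v ≡ v0 [MOD q]), g (Real.exp (Real.log v)) * E (u * v))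
        (∑ u ∈ (Icc 1 ⌊(U : ℝ) / ρ ^ R⌋₊).filter (fun u => u ≡ u0 [MOD q]),
          ∑ v ∈ (Icc 1 ⌊(K : ℝ) * B * ρ ^ R⌋₊).filter (fun v => v ≡ v0 [MOD q]),
            g (Real.exp (Real.log v - R * Real.log ρ)) * E (u * v))
      have e2 : ε / 6 * ((B : ℝ) * U) ≤ ε / 6 * (B * T) := by
        apply mul_le_mul_of_nonneg_left _ (by positivity)
        exact mul_le_mul_of_nonneg_left hUT' hB0.le
      have e3 := e1.trans hs
      linarith
  -- the cut-offs
  have hcut : |∑ u ∈ (Ioc U1 U2).filter (fun u => u ≡ u0 [MOD q]),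
      ∑ v ∈ (Icc 1 (K * B)).filter (fun v => v ≡ v0 [MOD q]), (Gv v - g v) * E (u * v)| ≤ ε / 3 * (B * T) := by
    have hcc := cut_cost Gv g (δ * B) (K * B) (by positivity) hg4
      (fun v hv1 hv2 => (hg5 v hv1 (by push_cast at hv2; exact hv2)))
    have hin : ∀ u : ℕ, |∑ v ∈ (Icc 1 (K * B)).filter (fun v => v ≡ v0 [MOD q]), (Gv v - g v) * E (u * v)| ≤
        3 * (δ * B) + 1 := by
      intro u
      refine (Finset.abs_sum_le_sum_abs _ _).trans ?_
      refine le_trans ?_ hcc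
      calc _ ≤ ∑ v ∈ (Icc 1 (K * B)).filter (fun v => v ≡ v0 [MOD q]), |Gv v - g v| := by
            refine Finset.sum_le_sum fun v _ => ?_
            rw [abs_mul]
            exact mul_le_of_le_one_right (abs_nonneg _) (hE1 _)
        _ ≤ _ := Finset.sum_le_sum_of_subset_of_nonneg (Finset.filter_subset _ _) fun _ _ _ => abs_nonneg _
    have hcard : (((Ioc U1 U2).filter (fun u => u ≡ u0 [MOD q])).card : ℝ) ≤ T := by
      have e1 := Finset.card_filter_le (Ioc U1 U2) (fun u => u ≡ u0 [MOD q])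
      rw [Nat.card_Ioc] at e1
      have e2 : U2 - U1 ≤ T := by omega
      exact_mod_cast e1.trans e2
    calc _ ≤ ∑ u ∈ (Ioc U1 U2).filter (fun u => u ≡ u0 [MOD q]), (3 * (δ * B) + 1) :=
          (Finset.abs_sum_le_sum_abs _ _).trans (Finset.sum_le_sum fun u _ => hin u)
      _ ≤ T * (3 * (δ * B) + 1) := by
          rw [Finset.sum_const, nsmul_eq_mul]
          exact mul_le_mul_of_nonneg_right hcard (by positivity)
      _ ≤ ε / 3 * (B * T) := by
          have e1 : 3 * (δ * B) ≤ ε * B / 4 := by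
            have e2 : δ * 12 ≤ ε := by nlinarith
            nlinarith
          have e3 : 3 * (δ * B) + 1 ≤ ε / 3 * B := by linarith
          calc (T : ℝ) * (3 * (δ * B) + 1) ≤ T * (ε / 3 * B) := mul_le_mul_of_nonneg_left e3 hT0
            _ = ε / 3 * (B * T) := by ring
  have hsplit : ∑ u ∈ (Ioc U1 U2).filter (fun u => u ≡ u0 [MOD q]),
      ∑ v ∈ (Icc 1 (K * B)).filter (fun v => v ≡ v0 [MOD q]), Gv v * E (u * v) =
      ∑ u ∈ (Ioc U1 U2).filter (fun u => u ≡ u0 [MOD q]),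
        ∑ v ∈ (Icc 1 (K * B)).filter (fun v => v ≡ v0 [MOD q]), (Gv v - g v) * E (u * v) +
      (SS E q u0 v0 U2 (K * B) (fun v => g v) - SS E q u0 v0 U1 (K * B) (fun v => g v)) := by
    rw [← SS_diff E q u0 v0 U1 U2 (K * B) hU12, ← Finset.sum_add_distrib]
    refine Finset.sum_congr rfl fun u _ => ?_
    rw [← Finset.sum_add_distrib]
    refine Finset.sum_congr rfl fun v _ => ?_
    ring
  rw [hsplit, zero_div, zero_mul, zero_add]
  have k1 := key U1 (hU12.trans hU2)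
  have k2 := key U2 hU2
  refine (abs_add_le _ _).trans ?_
  have k3 := abs_sub (SS E q u0 v0 U2 (K * B) (fun v => g v)) (SS E q u0 v0 U1 (K * B) (fun v => g v))
  linarith

end Pool.Agent.N475.QH
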